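import Mathlib
set_option autoImplicit false

/-!
# A random line meets few cells of a family of wide cones
-/

namespace Pool.Agent.K4H92.LP

open Finset MeasureTheory Metric Module

variable {F : Type*} [NormedAddCommGroup F] [NormedSpace ℝ F] [FiniteDimensional ℝ F]
  [MeasurableSpace F] [BorelSpace F] {ι : Type*}

theorem exit_measure (μ : Measure F) [μ.IsAddHaarMeasure] (V : Finset ι) (C : ι → Set F)
    (hm : ∀ w ∈ V, MeasurableSet (C w))
    (hd : ∀ w ∈ V, ∀ w' ∈ V, w ≠ w' → Disjoint (C w) (C w'))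
    (ω : ι → F) {r s : ℝ} (hr : ∀ w ∈ V, ‖ω w‖ ≤ r) (hs : 0 ≤ s)
    (hsh : ∀ w ∈ V, ∀ q ∈ C w, q + s • ω w ∈ C w) (c : F)
    (hex : ∀ w ∈ V, ∀ q ∈ C w, q + c ∉ C w → q - s • ω w ∉ C w) (y : F)
    (hn : 1 ≤ finrank ℝ F) (hr0 : 0 ≤ r) :
    μ {q | q ∈ ball y 1 ∧ ∃ w ∈ V, q ∈ C w ∧ q + c ∉ C w} ≤
      ENNReal.ofReal (finrank ℝ F * (s * r)) * μ (ball 0 1) := by
  classical
  have : Nontrivial F := Module.nontrivial_of_finrank_pos (R := ℝ) (by omega)
  have hball : ∀ ρ : ℝ, 0 ≤ ρ → μ (ball y ρ) = ENNReal.ofReal (ρ ^ finrank ℝ F) * μ (ball 0 1) :=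
    fun ρ hρ => Measure.addHaar_ball μ y hρ
  have hball1 : μ (ball y 1) = μ (ball 0 1) := by
    rw [hball 1 zero_le_one]; simp
  have hfin : μ (ball (0:F) 1) ≠ ⊤ := measure_ball_lt_top.ne
  have hn' : (1:ℝ) ≤ finrank ℝ F := by exact_mod_cast hn
  by_cases h1 : 1 ≤ s * r
  · calc μ {q | q ∈ ball y 1 ∧ ∃ w ∈ V, q ∈ C w ∧ q + c ∉ C w} ≤ μ (ball y 1) :=
          measure_mono fun q hq => hq.1
      _ = 1 * μ (ball 0 1) := by rw [hball1, one_mul]
      _ ≤ _ := by
        gcongr
        rw [← ENNReal.ofReal_one]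
        apply ENNReal.ofReal_le_ofReal
        nlinarith
  · push Not at h1
    set ρ := 1 - s * r with hρ
    have hρ0 : 0 ≤ ρ := by linarith
    have hsr : 0 ≤ s * r := mul_nonneg hs hr0
    have hρ1 : ρ ≤ 1 := by linarith
    have hsubball : ball y ρ ⊆ ball y 1 := ball_subset_ball hρ1
    set An := ball y 1 \ ball y ρ with hAn
    have hAnm : MeasurableSet An := measurableSet_ball.diff measurableSet_ball
    -- each cell
    have hcell : ∀ w ∈ V, μ {q | q ∈ ball y 1 ∧ q ∈ C w ∧ q + c ∉ C w} ≤ μ (C w ∩ An) := by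
      intro w hw
      set B := {q | q - s • ω w ∈ C w ∩ ball y ρ} with hB
      have hBm : MeasurableSet B :=
        (measurable_id.sub_const _) ((hm w hw).inter measurableSet_ball)
      have hBμ : μ B = μ (C w ∩ ball y ρ) := by
        have h2 := measure_preimage_add_right μ (-(s • ω w)) (C w ∩ ball y ρ)
        rw [← h2]
        congr 1
        ext q
        change q - s • ω w ∈ C w ∩ ball y ρ ↔ q + -(s • ω w) ∈ C w ∩ ball y ρ
        rw [sub_eq_add_neg]
      have hBsub : B ⊆ C w ∩ ball y 1 := by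
        rintro q ⟨h2, h3⟩
        refine ⟨?_, ?_⟩
        · have := hsh w hw _ h2
          rwa [sub_add_cancel] at this
        · rw [mem_ball, dist_eq_norm] at h3 ⊢
          have h4 : ‖s • ω w‖ ≤ s * r := by
            rw [norm_smul, Real.norm_eq_abs, abs_of_nonneg hs]
            exact mul_le_mul_of_nonneg_left (hr w hw) hs
          calc ‖q - y‖ = ‖(q - s • ω w - y) + s • ω w‖ := by congr 1; abel
            _ ≤ ‖q - s • ω w - y‖ + ‖s • ω w‖ := norm_add_le _ _
            _ < ρ + s * r := add_lt_add_of_lt_of_le h3 h4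
            _ = 1 := by rw [hρ]; ring
      have hdisj : Disjoint {q | q ∈ ball y 1 ∧ q ∈ C w ∧ q + c ∉ C w} B := by
        rw [Set.disjoint_left]
        rintro q ⟨_, h2, h3⟩ h4
        exact hex w hw q h2 h3 h4.1
      have h5 : μ {q | q ∈ ball y 1 ∧ q ∈ C w ∧ q + c ∉ C w} + μ (C w ∩ ball y ρ) ≤
          μ (C w ∩ An) + μ (C w ∩ ball y ρ) := by
        rw [← hBμ, ← measure_union hdisj hBm, hBμ]
        calc μ ({q | q ∈ ball y 1 ∧ q ∈ C w ∧ q + c ∉ C w} ∪ B) ≤ μ (C w ∩ ball y 1) := by
              apply measure_mono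
              rintro q (hq | hq)
              · exact ⟨hq.2.1, hq.1⟩
              · exact hBsub hq
          _ ≤ μ ((C w ∩ An) ∪ (C w ∩ ball y ρ)) := by
              apply measure_mono
              rintro q ⟨hq1, hq2⟩
              by_cases hq3 : q ∈ ball y ρ
              · exact Or.inr ⟨hq1, hq3⟩
              · exact Or.inl ⟨hq1, hq2, hq3⟩
          _ ≤ _ := measure_union_le _ _
      have h6 : μ (C w ∩ ball y ρ) ≠ ⊤ :=
        ((measure_mono Set.inter_subset_right).trans_lt measure_ball_lt_top).ne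
      exact (ENNReal.add_le_add_iff_right h6).1 h5
    have hAnμ : μ An ≤ ENNReal.ofReal (finrank ℝ F * (s * r)) * μ (ball 0 1) := by
      have h7 : μ An + μ (ball y ρ) = μ (ball 0 1) := by
        rw [← hball1, hAn, ← measure_union Set.disjoint_sdiff_left measurableSet_ball,
          Set.sdiff_union_of_subset hsubball]
      have h8 : μ (ball (0:F) 1) ≤ ENNReal.ofReal (finrank ℝ F * (s * r)) * μ (ball 0 1) +
          μ (ball y ρ) := by
        rw [hball ρ hρ0, ← add_mul, ← ENNReal.ofReal_add (by positivity) (by positivity)]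
        calc μ (ball (0:F) 1) = 1 * μ (ball 0 1) := (one_mul _).symm
          _ ≤ _ := by
            gcongr
            rw [← ENNReal.ofReal_one]
            apply ENNReal.ofReal_le_ofReal
            have := one_add_mul_le_pow (a := -(s * r)) (by linarith) (finrank ℝ F)
            have e : 1 + -(s * r) = ρ := by rw [hρ]; ring
            rw [e] at this
            linarith
      rw [← h7] at h8
      have h9 : μ (ball y ρ) ≠ ⊤ := measure_ball_lt_top.ne
      have h10 := (ENNReal.add_le_add_iff_right h9).1 h8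
      rwa [h7] at h10
    calc μ {q | q ∈ ball y 1 ∧ ∃ w ∈ V, q ∈ C w ∧ q + c ∉ C w}
        ≤ μ (⋃ w ∈ V, {q | q ∈ ball y 1 ∧ q ∈ C w ∧ q + c ∉ C w}) := by
          apply measure_mono
          rintro q ⟨h2, w, hw, h3, h4⟩
          exact Set.mem_biUnion (Finset.mem_coe.2 hw) ⟨h2, h3, h4⟩
      _ ≤ ∑ w ∈ V, μ {q | q ∈ ball y 1 ∧ q ∈ C w ∧ q + c ∉ C w} :=
          measure_biUnion_finset_le _ _
      _ ≤ ∑ w ∈ V, μ (C w ∩ An) := sum_le_sum hcell
      _ = μ (⋃ w ∈ V, C w ∩ An) := by
          refine (measure_biUnion_finset (fun w hw w' hw' hne => ?_) fun w hw =>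
            (hm w hw).inter hAnm).symm
          exact (hd w hw w' hw' hne).mono Set.inter_subset_left Set.inter_subset_left
      _ ≤ μ An := measure_mono (Set.iUnion₂_subset fun w _ => Set.inter_subset_right)
      _ ≤ _ := hAnμ

open Filter Topology in
/-- a random line meets few cells -/
theorem few_cells (μ : Measure F) [μ.IsAddHaarMeasure] (V : Finset ι) (C : ι → Set F)
    (ho : ∀ w ∈ V, IsOpen (C w))
    (hd : ∀ w ∈ V, ∀ w' ∈ V, w ≠ w' → Disjoint (C w) (C w'))
    (ω : ι → F) {r κ : ℝ} (hr0 : 0 ≤ r) (hr : ∀ w ∈ V, ‖ω w‖ ≤ r) (hκ : 0 < κ)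
    (hsh : ∀ w ∈ V, ∀ s : ℝ, 0 ≤ s → ∀ q ∈ C w, q + s • ω w ∈ C w)
    (hex : ∀ w ∈ V, ∀ c : F, ∀ q ∈ C w, q + c ∉ C w → ∀ s : ℝ, ‖c‖ ≤ s * κ →
      q - s • ω w ∉ C w)
    (hn : 1 ≤ finrank ℝ F) (c D : F) {T : ℝ} (hT : 0 < T) (bad : Set F) (hbad : μ bad = 0) :
    ∃ p ∈ ball D 1, p ∉ bad ∧ ∃ S : Finset ι,
      (∀ w ∈ V, ∀ t : ℝ, 0 ≤ t → t < T → p + t • c ∈ C w → w ∈ S) ∧
      (S.card : ℝ) ≤ finrank ℝ F * r * (T * ‖c‖) / κ + 1 := by
  classical
  have : Nontrivial F := Module.nontrivial_of_finrank_pos (R := ℝ) (by omega)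
  set Cb : ℝ := finrank ℝ F * r * (T * ‖c‖) / κ with hCb
  have hCb0 : 0 ≤ Cb := by positivity
  set S : F → Finset ι := fun p =>
    V.filter fun w => ∃ t : ℝ, 0 ≤ t ∧ t < T ∧ p + t • c ∈ C w with hS
  by_contra hcon
  push Not at hcon
  have hcon' : ∀ p ∈ ball D 1, p ∉ bad → Cb + 1 < ((S p).card : ℝ) := by
    intro p hp hpb
    exact hcon p hp hpb (S p) fun w hw t h0 h1 h2 => mem_filter.2 ⟨hw, t, h0, h1, h2⟩
  -- the grids
  set h : ℕ → ℝ := fun K => T / ((K : ℝ) + 1) with hh
  have hK0 : ∀ K : ℕ, (0:ℝ) < (K:ℝ) + 1 := fun K => by positivity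
  have hh0 : ∀ K, 0 < h K := fun K => div_pos hT (hK0 K)
  set A : ℕ → ℕ → Set F := fun K k =>
    {p | ∃ w ∈ V, p + ((k : ℝ) * h K) • c ∈ C w ∧ p + ((k : ℝ) * h K) • c + h K • c ∉ C w} with hA
  have hAm : ∀ K k, MeasurableSet (A K k) := by
    intro K k
    have : A K k = ⋃ w ∈ V, ({p | p + ((k : ℝ) * h K) • c ∈ C w} ∩
        {p | p + ((k : ℝ) * h K) • c + h K • c ∈ C w}ᶜ) := by
      ext p
      simp only [hA, Set.mem_setOf_eq, Set.mem_iUnion, Set.mem_inter_iff, Set.mem_compl_iff,
        exists_prop]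
    rw [this]
    refine Finset.measurableSet_biUnion _ fun w hw => ?_
    refine MeasurableSet.inter ?_ (MeasurableSet.compl ?_)
    · exact ((ho w hw).preimage (continuous_id.add continuous_const)).measurableSet
    · exact ((ho w hw).preimage ((continuous_id.add continuous_const).add
        continuous_const)).measurableSet
  have hAμ : ∀ K k, μ (A K k ∩ ball D 1) ≤
      ENNReal.ofReal (finrank ℝ F * (h K * ‖c‖ / κ * r)) * μ (ball 0 1) := by
    intro K k
    have h1 := exit_measure μ V C (fun w hw => (ho w hw).measurableSet) hd ω hr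
      (s := h K * ‖c‖ / κ) (by have := hh0 K; positivity)
      (fun w hw q hq => hsh w hw _ (by have := hh0 K; positivity) q hq) (h K • c)
      (fun w hw q hq hq' => hex w hw _ q hq hq' _ (by
        rw [norm_smul, Real.norm_eq_abs, abs_of_pos (hh0 K), div_mul_cancel₀ _ hκ.ne']))
      (D + ((k : ℝ) * h K) • c) hn hr0
    refine le_trans (le_of_eq ?_) h1
    rw [← measure_preimage_add_right μ (((k : ℝ) * h K) • c)
      {q | q ∈ ball (D + ((k : ℝ) * h K) • c) 1 ∧ ∃ w ∈ V, q ∈ C w ∧ q + h K • c ∉ C w}]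
    congr 1
    ext p
    have e : dist (p + ((k : ℝ) * h K) • c) (D + ((k : ℝ) * h K) • c) = dist p D := by
      rw [dist_eq_norm, dist_eq_norm, add_sub_add_right_eq_sub]
    constructor
    · rintro ⟨h2, h3⟩
      exact ⟨by rw [mem_ball, e]; exact h3, h2⟩
    · rintro ⟨h2, h3⟩
      rw [mem_ball, e] at h2
      exact ⟨h3, h2⟩
  set g : ℕ → F → ENNReal := fun K p => ∑ k ∈ range (K + 1), (A K k).indicator (fun _ => 1) p
    with hg
  have hgm : ∀ K, Measurable (g K) := fun K =>
    Finset.measurable_sum _ fun k _ => measurable_const.indicator (hAm K k)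
  have hgint : ∀ K, ∫⁻ p in ball D 1, g K p ∂μ ≤ ENNReal.ofReal Cb * μ (ball 0 1) := by
    intro K
    rw [lintegral_finsetSum _ fun k _ => measurable_const.indicator (hAm K k)]
    calc ∑ k ∈ range (K + 1), ∫⁻ p in ball D 1, (A K k).indicator (fun _ => 1) p ∂μ
        ≤ ∑ k ∈ range (K + 1),
          ENNReal.ofReal (finrank ℝ F * (h K * ‖c‖ / κ * r)) * μ (ball 0 1) := by
          refine sum_le_sum fun k _ => ?_
          rw [lintegral_indicator (hAm K k), setLIntegral_const, one_mul,
            Measure.restrict_apply (hAm K k)]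
          exact hAμ K k
      _ = ENNReal.ofReal Cb * μ (ball 0 1) := by
          rw [sum_const, card_range, nsmul_eq_mul, ← mul_assoc]
          congr 1
          rw [← ENNReal.ofReal_natCast, ← ENNReal.ofReal_mul (by positivity)]
          congr 1
          rw [hCb, hh]
          push_cast
          have := hK0 K
          field_simp
  set M := ⌊Cb⌋₊ + 1 with hM
  have hMC : Cb < M := by
    rw [hM]; push_cast; exact Nat.lt_floor_add_one Cb
  -- the number of exits seen by fine grids
  have hev : ∀ p ∈ ball D 1, p ∉ bad → ∀ᶠ K in atTop, (M : ENNReal) ≤ g K p := by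
    intro p hp hpb
    have hSp := hcon' p hp hpb
    have hseen : ∀ᶠ K : ℕ in atTop, ∀ w ∈ S p, ∃ k : ℕ, k < K + 1 ∧ p + ((k : ℝ) * h K) • c ∈ C w := by
      rw [Filter.eventually_all_finset]
      intro w hw
      obtain ⟨hwV, t, ht0, ht1, ht2⟩ := mem_filter.1 hw
      have hcont : Continuous fun t : ℝ => p + t • c := by fun_prop
      have hopen := (ho w hwV).preimage hcont
      obtain ⟨ε, hε, hball⟩ := Metric.isOpen_iff.1 hopen t ht2
      have hlim : Tendsto h atTop (𝓝 0) := by
        have := tendsto_one_div_add_atTop_nhds_zero_nat (𝕜 := ℝ)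
        have h2 := this.const_mul T
        rw [mul_zero] at h2
        refine h2.congr fun K => ?_
        rw [hh]
        simp only
        ring
      have hsmall : ∀ᶠ K in atTop, h K < min ε (T - t) :=
        hlim.eventually (gt_mem_nhds (lt_min hε (by linarith)))
      filter_upwards [hsmall] with K hK
      have hK1 : h K < ε := hK.trans_le (min_le_left _ _)
      have hK2 : h K < T - t := hK.trans_le (min_le_right _ _)
      have hpos := hh0 K
      refine ⟨⌈t / h K⌉₊, ?_, hball ?_⟩
      · have h2 : (⌈t / h K⌉₊ : ℝ) < t / h K + 1 := Nat.ceil_lt_add_one (div_nonneg ht0 hpos.le)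
        have h3 : t / h K + 1 < (K:ℝ) + 1 := by
          have h4 : (t / h K + 1) * h K < ((K:ℝ) + 1) * h K := by
            have e1 : ((K:ℝ) + 1) * h K = T := by
              rw [hh]; simp only; rw [mul_div_cancel₀ _ (hK0 K).ne']
            rw [e1, add_mul, div_mul_cancel₀ _ hpos.ne']
            linarith
          exact lt_of_mul_lt_mul_right h4 hpos.le
        exact_mod_cast h2.trans h3
      · rw [mem_ball, Real.dist_eq, abs_of_nonneg]
        · have h2 : (⌈t / h K⌉₊ : ℝ) < t / h K + 1 := Nat.ceil_lt_add_one (div_nonneg ht0 hpos.le)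
          have h3 := mul_lt_mul_of_pos_right h2 hpos
          rw [add_mul, div_mul_cancel₀ _ hpos.ne'] at h3
          linarith
        · have h2 : t / h K ≤ (⌈t / h K⌉₊ : ℝ) := Nat.le_ceil _
          have h3 := mul_le_mul_of_nonneg_right h2 hpos.le
          rw [div_mul_cancel₀ _ hpos.ne'] at h3
          linarith
    filter_upwards [hseen] with K hK
    set B := (range (K + 1)).filter fun k => p ∈ A K k with hB
    have hgB : g K p = (B.card : ENNReal) := by
      rw [hg, hB]
      simp only [Set.indicator_apply]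
      rw [Finset.sum_boole]
    rw [hgB]
    have hcard : (S p).card ≤ B.card + 1 := by
      set Q : ι → Finset ℕ := fun w =>
        (range (K + 1)).filter fun k => p + ((k : ℝ) * h K) • c ∈ C w with hQ
      set kw : ι → ℕ := fun w => (Q w).sup id with hkw
      have hmem : ∀ w ∈ S p, kw w ∈ Q w := by
        intro w hw
        obtain ⟨k, hk1, hk2⟩ := hK w hw
        have hne : (Q w).Nonempty := ⟨k, mem_filter.2 ⟨mem_range.2 hk1, hk2⟩⟩
        obtain ⟨k', hk', he⟩ := exists_mem_eq_sup (Q w) hne id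
        rw [hkw]
        simp only
        rw [he]
        exact hk'
      have hinj : ∀ w ∈ S p, ∀ w' ∈ S p, kw w = kw w' → w = w' := by
        intro w hw w' hw' he
        by_contra hne
        have h1 := (mem_filter.1 (hmem w hw)).2
        have h2 := (mem_filter.1 (hmem w' hw')).2
        rw [← he] at h2
        exact Set.disjoint_left.1 (hd w (mem_filter.1 hw).1 w' (mem_filter.1 hw').1 hne) h1 h2
      have hmap : ∀ w ∈ S p, kw w ∈ insert K B := by
        intro w hw
        obtain ⟨h1, h2⟩ := mem_filter.1 (hmem w hw)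
        by_cases hkK : kw w = K
        · rw [hkK]; exact mem_insert_self _ _
        · refine mem_insert_of_mem (mem_filter.2 ⟨h1, w, (mem_filter.1 hw).1, h2, fun h3 => ?_⟩)
          have h4 : kw w + 1 ∈ Q w := by
            refine mem_filter.2 ⟨mem_range.2 ?_, ?_⟩
            · have := mem_range.1 h1
              omega
            · have e : p + (((kw w + 1 : ℕ) : ℝ) * h K) • c =
                  p + ((kw w : ℝ) * h K) • c + h K • c := by
                push_cast; module
              rw [e]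
              exact h3
          have h5 : id (kw w + 1) ≤ (Q w).sup id := le_sup h4
          have h6 : (Q w).sup id = kw w := rfl
          rw [h6] at h5
          simp at h5
      calc (S p).card ≤ (insert K B).card := card_le_card_of_injOn kw
            (fun w hw => Finset.mem_coe.2 (hmap w hw)) (fun w hw w' hw' he => hinj w hw w' hw' he)
        _ ≤ B.card + 1 := card_insert_le _ _
    have h7 : Cb < B.card := by
      have : ((S p).card : ℝ) ≤ B.card + 1 := by exact_mod_cast hcard
      linarith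
    have h8 : ⌊Cb⌋₊ < B.card := (Nat.floor_lt hCb0).2 h7
    exact_mod_cast h8
  have hlow : (M : ENNReal) * μ (ball 0 1) ≤ ∫⁻ p in ball D 1, liminf (fun K => g K p) atTop ∂μ := by
    have hball1 : μ (ball D 1) = μ (ball 0 1) := by
      rw [Measure.addHaar_ball μ D zero_le_one]; simp
    rw [← hball1, ← setLIntegral_const]
    refine lintegral_mono_ae ?_
    rw [ae_restrict_iff' measurableSet_ball]
    filter_upwards [measure_eq_zero_iff_ae_notMem.1 hbad] with p hpb hp
    exact le_liminf_of_le (by isBoundedDefault) (hev p hp hpb)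
  have hup : ∫⁻ p in ball D 1, liminf (fun K => g K p) atTop ∂μ ≤
      ENNReal.ofReal Cb * μ (ball 0 1) := by
    refine (lintegral_liminf_le hgm).trans ?_
    refine (liminf_le_liminf (v := fun _ => ENNReal.ofReal Cb * μ (ball 0 1))
      (Filter.Eventually.of_forall hgint)).trans ?_
    rw [liminf_const]
  have hfin : μ (ball (0:F) 1) ≠ ⊤ := measure_ball_lt_top.ne
  have hpos : μ (ball (0:F) 1) ≠ 0 := (measure_ball_pos μ _ one_pos).ne'
  have h9 := (ENNReal.mul_le_mul_iff_left hpos hfin).1 (hlow.trans hup)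
  rw [← ENNReal.ofReal_natCast] at h9
  have h10 := (ENNReal.ofReal_le_ofReal_iff hCb0).1 h9
  linarith

end Pool.Agent.K4H92.LP
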