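import Pool.Agent.K4H92.LP.TU.Rec
set_option autoImplicit false

/-!
# Circuit imbalance
-/

namespace Pool.Agent.K4H92.LP

open Finset Module

universe u v

theorem mono_circ {E : Type u} [AddCommGroup E] [Module ℝ E] [FiniteDimensional ℝ E]
    {I : Type v} [Fintype I] (a : I → E →ₗ[ℝ] ℝ) (β : I → ℝ) (c : E →ₗ[ℝ] ℝ) {K : ℝ}
    (hK : 0 < K) (hcirc : ∀ e, Elem a e → ∀ i j, a i e ≠ 0 → |a j e| ≤ K * |a i e|) {n : ℕ}
    (hn : finrank ℝ E = n) (v : E) (hv : Vert a β v) :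
    ∃ (N : ℕ) (w : E), (N : ℝ) ≤ n ^ 3 * K * (n * K + 1) ^ 2 ∧ Walk a β c N v w ∧
      Vert a β w ∧ End a β c w := by
  set Θ : E →ₗ[ℝ] (I → ℝ) := LinearMap.pi a with hΘ
  have hinj : Function.Injective Θ := by
    rw [← LinearMap.ker_eq_bot, LinearMap.ker_eq_bot']
    intro z hz
    exact hv.2 z fun i _ => congrFun hz i
  letI : NormedAddCommGroup E := NormedAddCommGroup.induced E (I → ℝ) Θ hinj
  letI : NormedSpace ℝ E := NormedSpace.induced ℝ E (I → ℝ) Θ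
  have hnorm : ∀ x : E, ‖x‖ = ‖Θ x‖ := fun x => rfl
  have hw : Wide a 1 (1 / K) := by
    refine ⟨fun i x => ?_, fun e he i hi => ?_⟩
    · rw [one_mul, hnorm]
      exact norm_le_pi_norm (Θ x) i
    · rw [one_div, inv_mul_le_iff₀ hK, hnorm]
      refine (pi_norm_le_iff_of_nonneg (by positivity)).2 fun j => ?_
      exact hcirc e he i j hi
  obtain ⟨N, w, h1, h2, h3, h4⟩ := mono_walk n E I a β c one_pos (one_div_pos.2 hK) hw hn v hv
  refine ⟨N, w, h1.trans (le_of_eq ?_), h2, h3, h4⟩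
  rw [one_div_one_div]
  ring

end Pool.Agent.K4H92.LP
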