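import Pool.Agent.K4H92.LP.TU.Circ
set_option autoImplicit false

/-!
# Matrices with bounded subdeterminants have the distance property
-/

namespace Pool.Agent.K4H92.LP

open Finset Module Matrix

variable {m n : ℕ}

theorem det_real {ι : Type*} [Fintype ι] [DecidableEq ι] (M : Matrix ι ι ℤ) :
    (M.map (Int.cast : ℤ → ℝ)).det = (M.det : ℝ) := by
  have := (Int.castRingHom ℝ).map_det M
  rw [RingHom.mapMatrix_apply] at this
  exact this.symm

theorem exists_rows {k : ℕ} (f : Fin m → (Fin k → ℝ) →ₗ[ℝ] ℝ) (R : Finset (Fin m))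
    (h : Spans f R) : ∃ r : Fin k → Fin m, (∀ l, r l ∈ R) ∧ ∀ z, (∀ l, f (r l) z = 0) → z = 0 := by
  classical
  obtain ⟨B, hB, hcard, hsp⟩ := exists_basis h
  rw [finrank_fin_fun] at hcard
  -- the functionals of `B` separate points
  set Θ : (Fin k → ℝ) →ₗ[ℝ] (B → ℝ) := LinearMap.pi fun i => f i with hΘ
  have hinj : Function.Injective Θ := by
    rw [← LinearMap.ker_eq_bot, LinearMap.ker_eq_bot']
    intro z hz
    apply hsp
    intro i hi
    exact congrFun hz ⟨i, hi⟩
  have h1 := LinearMap.finrank_le_finrank_of_injective hinj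
  rw [finrank_fin_fun, finrank_fintype_fun_eq_card, Fintype.card_coe] at h1
  have hk : B.card = k := le_antisymm hcard h1
  let e := B.equivFinOfCardEq hk
  refine ⟨fun l => e.symm l, fun l => hB (e.symm l).2, fun z hz => hsp z fun i hi => ?_⟩
  have := hz (e ⟨i, hi⟩)
  simpa using this

theorem integer_elem {A : Matrix (Fin m) (Fin n) ℤ} {Δ : ℕ}
    (hA : ∀ (k : ℕ) (r : Fin k → Fin m) (s : Fin k → Fin n), |(A.submatrix r s).det| ≤ Δ)
    {e : Fin n → ℝ} (he : Elem (rows fun i j => (A i j : ℝ)) e) :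
    ∃ s : ℝ, s ≠ 0 ∧ ∀ i, ∃ q : ℤ, (q : ℝ) = s * rows (fun i j => (A i j : ℝ)) i e ∧
      |q| ≤ Δ := by
  classical
  obtain ⟨j₀, hj₀⟩ : ∃ j, e j ≠ 0 := by
    by_contra hcon
    push Not at hcon
    exact he.1 (funext hcon)
  set J : Finset (Fin n) := univ.filter fun j => e j ≠ 0 ∧ j ≠ j₀ with hJ
  set k := J.card with hk
  let σ := J.equivFinOfCardEq hk.symm
  let sg : Fin k → Fin n := fun l => σ.symm l
  have hsg : ∀ l, sg l ∈ J := fun l => (σ.symm l).2
  have hsgi : Function.Injective sg := fun l l' h => σ.symm.injective (Subtype.ext h)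
  have hsgs : ∀ j ∈ J, ∃ l, sg l = j := fun j hj => ⟨σ ⟨j, hj⟩, by simp [sg]⟩
  set f : Fin m → (Fin k → ℝ) →ₗ[ℝ] ℝ := fun i => ∑ l, (A i (sg l) : ℝ) • LinearMap.proj l with hf
  have hfx : ∀ i z, f i z = ∑ l, (A i (sg l) : ℝ) * z l := fun i z => by
    simp [hf, LinearMap.sum_apply]
  -- sums over all columns
  have hsum : ∀ (g : Fin n → ℝ), (∀ j, e j = 0 → g j = 0) → ∀ i : Fin m,
      ∑ j, (A i j : ℝ) * g j = (A i j₀ : ℝ) * g j₀ + ∑ l, (A i (sg l) : ℝ) * g (sg l) := by
    intro g hg i
    have h1 : ∑ l, (A i (sg l) : ℝ) * g (sg l) = ∑ j ∈ J, (A i j : ℝ) * g j := by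
      have h2 : univ.image sg = J := by
        ext j
        rw [mem_image]
        constructor
        · rintro ⟨l, _, rfl⟩; exact hsg l
        · intro hj
          obtain ⟨l, hl⟩ := hsgs j hj
          exact ⟨l, mem_univ _, hl⟩
      rw [← h2, sum_image fun l _ l' _ h => hsgi h]
    rw [h1]
    have h3 : j₀ ∉ J := fun h => (mem_filter.1 h).2.2 rfl
    rw [← sum_insert (f := fun j => (A i j : ℝ) * g j) h3]
    refine (sum_subset (subset_univ _) fun j _ hj => ?_).symm
    have h4 : e j = 0 := by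
      by_contra h5
      apply hj
      by_cases h6 : j = j₀
      · rw [h6]; exact mem_insert_self _ _
      · exact mem_insert_of_mem (mem_filter.2 ⟨mem_univ _, h5, h6⟩)
    rw [hg j h4, mul_zero]
  set R : Finset (Fin m) := univ.filter fun i => rows (fun i j => (A i j : ℝ)) (Sum.inl i) e = 0
    with hR
  have hspan : Spans f R := by
    intro z hz
    -- the extended vector
    set g : Fin n → ℝ := fun j => if h : j ∈ J then z (σ ⟨j, h⟩) else 0 with hg
    have hgs : ∀ l, g (sg l) = z l := by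
      intro l
      have : g (sg l) = z (σ ⟨sg l, hsg l⟩) := by
        rw [hg]; simp only; rw [dif_pos (hsg l)]
      rw [this]
      congr 1
      simp [sg]
    have hg0 : g j₀ = 0 := by
      rw [hg]
      simp only
      rw [dif_neg]
      intro h
      exact (mem_filter.1 h).2.2 rfl
    have hge : ∀ j, e j = 0 → g j = 0 := by
      intro j hj
      rw [hg]
      simp only
      rw [dif_neg]
      intro h
      exact (mem_filter.1 h).2.1 hj
    obtain ⟨t, ht⟩ := he.2 g (by
      rintro (i | j) hi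
      · rw [rows_inl, hsum g hge, hg0, mul_zero, zero_add]
        simp only [hgs]
        rw [← hfx]
        exact hz i (mem_filter.2 ⟨mem_univ _, hi⟩)
      · rw [rows_inr] at hi ⊢
        rw [hge j (by linarith), neg_zero])
    have h1 : t = 0 := by
      have h2 := congrFun ht j₀
      rw [hg0, Pi.smul_apply, smul_eq_mul] at h2
      rcases mul_eq_zero.1 h2.symm with h3 | h3
      · exact h3
      · exact absurd h3 hj₀
    rw [h1, zero_smul] at ht
    funext l
    rw [← hgs l, ht]
    rfl
  obtain ⟨r, hr1, hr2⟩ := exists_rows f R hspan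
  set Mz : Matrix (Fin k) (Fin k) ℤ := A.submatrix r sg with hMz
  set M : Matrix (Fin k) (Fin k) ℝ := Mz.map (Int.cast : ℤ → ℝ) with hM
  have hMv : ∀ z l, (M *ᵥ z) l = f (r l) z := by
    intro z l
    rw [hfx]
    rfl
  have hdet : M.det ≠ 0 := by
    intro h0
    obtain ⟨z, hz0, hz⟩ := Matrix.exists_mulVec_eq_zero_iff.2 h0
    exact hz0 (hr2 z fun l => by rw [← hMv, hz]; rfl)
  set bz : Fin k → ℤ := fun l => -A (r l) j₀ with hbz
  set b : Fin k → ℝ := fun l => (bz l : ℝ) with hb
  set z : Fin k → ℝ := fun l => e (sg l) / e j₀ with hz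
  have hMz' : M *ᵥ z = b := by
    funext l
    rw [hMv, hfx, hb, hbz, hz]
    simp only
    have h1 := (mem_filter.1 (hr1 l)).2
    rw [rows_inl, hsum e (fun j hj => hj)] at h1
    have h2 : ∑ x, (A (r l) (sg x) : ℝ) * (e (sg x) / e j₀) =
        (∑ x, (A (r l) (sg x) : ℝ) * e (sg x)) / e j₀ := by
      rw [sum_div]
      exact sum_congr rfl fun x _ => by ring
    rw [h2]
    push_cast
    rw [div_eq_iff hj₀]
    linarith
  have hcr : ∀ l, M.det * z l = (M.updateCol l b).det := by
    have h1 : M *ᵥ (M.det • z) = M *ᵥ (M.cramer b) := by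
      rw [Matrix.mulVec_smul, hMz', Matrix.mulVec_cramer]
    have h2 : M.det • z = M.cramer b := by
      have h3 : M.det • z - M.cramer b = 0 := by
        refine hr2 _ fun l => ?_
        rw [← hMv, Matrix.mulVec_sub, h1, sub_self]
        rfl
      exact sub_eq_zero.1 h3
    intro l
    have := congrFun h2 l
    rw [Matrix.cramer_apply] at this
    exact this
  refine ⟨M.det / e j₀, div_ne_zero hdet hj₀, ?_⟩
  rintro (i | j)
  · -- a bordered determinant
    have : Invertible M := M.invertibleOfIsUnitDet (isUnit_iff_ne_zero.2 hdet)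
    set Br : Matrix (Fin k) (Fin 1) ℝ := fun l _ => (A (r l) j₀ : ℝ) with hBr
    set Cr : Matrix (Fin 1) (Fin k) ℝ := fun _ l => (A i (sg l) : ℝ) with hCr
    set Dr : Matrix (Fin 1) (Fin 1) ℝ := fun _ _ => (A i j₀ : ℝ) with hDr
    set Z : Matrix (Fin k) (Fin 1) ℝ := fun l _ => z l with hZ
    set rr : Fin k ⊕ Fin 1 → Fin m := Sum.elim r fun _ => i with hrr
    set ss : Fin k ⊕ Fin 1 → Fin n := Sum.elim sg fun _ => j₀ with hss
    have hblock : (A.submatrix rr ss).map (Int.cast : ℤ → ℝ) = Matrix.fromBlocks M Br Cr Dr := by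
      ext (x | x) (y | y) <;> rfl
    have hMZ : Br = -(M * Z) := by
      ext l x
      have h1 := congrFun hMz' l
      have h2 : (M * Z) l x = (M *ᵥ z) l := rfl
      rw [Matrix.neg_apply, h2, h1, hb, hbz, hBr]
      push_cast
      ring
    have h3 : Dr - Cr * ⅟M * Br = Dr + Cr * Z := by
      rw [hMZ, Matrix.mul_neg, sub_neg_eq_add, Matrix.mul_assoc, Matrix.invOf_mul_cancel_left]
    refine ⟨(A.submatrix rr ss).det, ?_, ?_⟩
    · have h6 : (Dr + Cr * Z).det = (A i j₀ : ℝ) + ∑ l, (A i (sg l) : ℝ) * z l := by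
        rw [Matrix.det_unique]
        rfl
      have h4 : ∑ l, (A i (sg l) : ℝ) * z l = (∑ l, (A i (sg l) : ℝ) * e (sg l)) / e j₀ := by
        rw [sum_div]
        refine sum_congr rfl fun x _ => ?_
        rw [hz]
        ring
      rw [← det_real, hblock, Matrix.det_fromBlocks₁₁, h3, h6, h4, rows_inl,
        hsum e (fun j hj => hj)]
      field_simp
    · have h5 := hA (k + 1) (rr ∘ finSumFinEquiv.symm) (ss ∘ finSumFinEquiv.symm)
      rw [← Matrix.submatrix_submatrix, Matrix.det_submatrix_equiv_self] at h5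
      exact h5
  by_cases hjj : j = j₀
  · refine ⟨-Mz.det, ?_, by rw [abs_neg]; exact hA k r sg⟩
    rw [rows_inr, hjj, mul_neg, div_mul_cancel₀ _ hj₀, hM, det_real]
    push_cast
    rfl
  · by_cases hej : e j = 0
    · exact ⟨0, by rw [rows_inr, hej]; simp, by simp⟩
    · obtain ⟨l, hl⟩ := hsgs j (mem_filter.2 ⟨mem_univ _, hej, hjj⟩)
      have h0 : ((Mz.updateCol l bz).det : ℝ) = M.det / e j₀ * e j ∧
          |(Mz.updateCol l bz).det| ≤ (Δ : ℤ) := by
        constructor
        · have h1 : (M.updateCol l b) = (Mz.updateCol l bz).map (Int.cast : ℤ → ℝ) := by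
            ext i j'
            rw [Matrix.map_apply, Matrix.updateCol_apply, Matrix.updateCol_apply]
            split_ifs with h
            · rfl
            · rfl
          rw [← det_real, ← h1, ← hcr l, hz, ← hl]
          simp only
          ring
        · have h2 : Mz.updateCol l bz = Mz.updateCol l (-fun l => A (r l) j₀) := rfl
          have h3 : (Mz.updateCol l (-fun l => A (r l) j₀)).det =
              -(Mz.updateCol l (fun l => A (r l) j₀)).det := by
            have := Matrix.det_updateCol_smul Mz l (-1 : ℤ) (fun l => A (r l) j₀)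
            rw [neg_one_smul] at this
            rw [this]; ring
          have h4 : Mz.updateCol l (fun l => A (r l) j₀) =
              A.submatrix r (Function.update sg l j₀) := by
            ext i j'
            rw [Matrix.updateCol_apply, Matrix.submatrix_apply]
            by_cases h : j' = l
            · rw [h, if_pos rfl, Function.update_self]
            · rw [if_neg h, Function.update_of_ne h]
              rfl
          rw [h2, h3, abs_neg, h4]
          exact hA k r _
      refine ⟨-(Mz.updateCol l bz).det, ?_, by rw [abs_neg]; exact h0.2⟩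
      rw [rows_inr, mul_neg, ← h0.1]
      push_cast
      rfl

/-- bounded subdeterminants bound the circuit imbalance -/
theorem circ_of_det {A : Matrix (Fin m) (Fin n) ℤ} {Δ : ℕ}
    (hA : ∀ (k : ℕ) (r : Fin k → Fin m) (s : Fin k → Fin n), |(A.submatrix r s).det| ≤ Δ) :
    ∀ e, Elem (rows fun i j => (A i j : ℝ)) e → ∀ i j, rows (fun i j => (A i j : ℝ)) i e ≠ 0 →
      |rows (fun i j => (A i j : ℝ)) j e| ≤ Δ * |rows (fun i j => (A i j : ℝ)) i e| := by
  intro e he i j hi
  obtain ⟨s, hs, hq⟩ := integer_elem hA he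
  obtain ⟨p, hp1, _⟩ := hq i
  obtain ⟨q, hq1, hq2⟩ := hq j
  have hp0 : p ≠ 0 := by
    rintro rfl
    rw [Int.cast_zero] at hp1
    rcases mul_eq_zero.1 hp1.symm with h | h
    · exact hs h
    · exact hi h
  have hs' : 0 < |s| := abs_pos.2 hs
  have h2 : (1:ℝ) ≤ |s| * |rows (fun i j => (A i j : ℝ)) i e| := by
    rw [← abs_mul, ← hp1]
    have := Int.one_le_abs hp0
    exact_mod_cast this
  have h3 : |s| * |rows (fun i j => (A i j : ℝ)) j e| ≤ Δ := by
    rw [← abs_mul, ← hq1]
    exact_mod_cast hq2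
  have h5 : |s| * |rows (fun i j => (A i j : ℝ)) j e| ≤
      |s| * (Δ * |rows (fun i j => (A i j : ℝ)) i e|) := by
    have : (Δ:ℝ) * 1 ≤ Δ * (|s| * |rows (fun i j => (A i j : ℝ)) i e|) :=
      mul_le_mul_of_nonneg_left h2 (by positivity)
    linarith
  exact le_of_mul_le_mul_left h5 hs'

theorem one_le_of_det {A : Matrix (Fin m) (Fin n) ℤ} {Δ : ℕ}
    (hA : ∀ (k : ℕ) (r : Fin k → Fin m) (s : Fin k → Fin n), |(A.submatrix r s).det| ≤ Δ) :
    1 ≤ Δ := by
  have := hA 0 Fin.elim0 Fin.elim0
  simp at this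
  exact_mod_cast this

end Pool.Agent.K4H92.LP
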