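import Pool.Agent.K4H92.LP.Edge
set_option autoImplicit false

/-!
# A row which stays tight
-/

namespace Pool.Agent.K4H92.LP

open Finset Module

section Free

variable {E : Type*} [AddCommGroup E] [Module ℝ E] {I : Type*} [Fintype I]
  {a : I → E →ₗ[ℝ] ℝ} {β : I → ℝ}

/-- the common zeros of the rows which vanish at `e` are the multiples of `e` -/
def Elem (a : I → E →ₗ[ℝ] ℝ) (e : E) : Prop :=
  e ≠ 0 ∧ ∀ g, (∀ i, a i e = 0 → a i g = 0) → ∃ t : ℝ, g = t • e

theorem Dir.elem {T : Finset I} {e : E} (h : Dir a T e) : Elem a e :=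
  ⟨h.ne_zero, fun g hg => h.2.2 g fun i _ h0 => hg i h0⟩

end Free

variable {E : Type*} [NormedAddCommGroup E] [NormedSpace ℝ E] {I : Type*} [Fintype I]
  {a : I → E →ₗ[ℝ] ℝ} {β : I → ℝ}

/-- the distance property -/
def Wide (a : I → E →ₗ[ℝ] ℝ) (α κ : ℝ) : Prop :=
  (∀ i x, |a i x| ≤ α * ‖x‖) ∧ ∀ e, Elem a e → ∀ i, a i e ≠ 0 → κ * ‖e‖ ≤ |a i e|

theorem exists_row [FiniteDimensional ℝ E] {α κ : ℝ} (hα : 0 ≤ α) (hκ : 0 < κ)
    (hw : Wide a α κ) {T : Finset I} {c w : E →ₗ[ℝ] ℝ} {W t : ℝ} (hW0 : 0 ≤ W) (ht : 0 < t)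
    (hW : ∀ x, |w x| ≤ W * ‖x‖) {y : I → ℝ} (hy : ∀ i ∈ T, 0 ≤ y i) (hyT : ∀ i, i ∉ T → y i = 0)
    (hu : ∀ x, w x + t * c x = ∑ i, y i * a i x)
    (hbig : ∃ x, finrank ℝ E * W * (α / κ) * ‖x‖ < |w x + t * c x|) :
    ∃ i ∈ T, a i ≠ 0 ∧ ∀ e, Elem a e → (∀ j ∈ T, a j e ≤ 0) → 0 ≤ c e → a i e = 0 := by
  classical
  by_contra hcon
  push Not at hcon
  set Bd : Set E := {e | Elem a e ∧ (∀ j ∈ T, a j e ≤ 0) ∧ 0 ≤ c e} with hBd
  obtain ⟨b, hb, hspan, hli⟩ := exists_linearIndependent ℝ Bd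
  have hfin : b.Finite := LinearIndependent.setFinite hli
  have : Fintype b := hfin.fintype
  have hcard : (Fintype.card b : ℝ) ≤ finrank ℝ E := by
    exact_mod_cast hli.fintype_card_le_finrank
  set g : E := ∑ e : b, (‖(e : E)‖)⁻¹ • (e : E) with hg
  have hbn : ∀ e : b, 0 < ‖(e : E)‖ := fun e => norm_pos_iff.2 (hb e.2).1.1
  -- every row is large at `g`
  have h1 : ∀ j ∈ T, a j ≠ 0 → a j g ≤ -κ := by
    intro j hj hj0
    obtain ⟨e', he1, he2, he3, he4⟩ := hcon j hj hj0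
    have hex : ∃ e : b, a j e ≠ 0 := by
      by_contra hc
      push Not at hc
      have h2 : Submodule.span ℝ b ≤ LinearMap.ker (a j) :=
        Submodule.span_le.2 fun e he => hc ⟨e, he⟩
      rw [hspan] at h2
      exact he4 (h2 (Submodule.subset_span ⟨he1, he2, he3⟩))
    obtain ⟨e, he⟩ := hex
    have h3 : ∀ e : b, (‖(e : E)‖)⁻¹ * a j e ≤ 0 := fun e =>
      mul_nonpos_of_nonneg_of_nonpos (inv_nonneg.2 (norm_nonneg _)) ((hb e.2).2.1 j hj)
    have h4 : (‖(e : E)‖)⁻¹ * a j e ≤ -κ := by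
      have h5 := hw.2 e (hb e.2).1 j he
      rw [abs_of_nonpos ((hb e.2).2.1 j hj)] at h5
      rw [inv_mul_le_iff₀ (hbn e)]
      linarith
    rw [hg, map_sum]
    simp only [map_smul, smul_eq_mul]
    rw [← add_sum_erase _ _ (mem_univ e)]
    have h6 := sum_nonpos (s := univ.erase e) fun e' _ => h3 e'
    linarith
  have h2 : -(finrank ℝ E * W) ≤ w g + t * c g := by
    have h3 : ∀ e : b, -W ≤ (‖(e : E)‖)⁻¹ * (w e + t * c e) := by
      intro e
      have h4 := neg_le_of_abs_le (hW e)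
      have h5 := mul_nonneg ht.le (hb e.2).2.2
      rw [neg_le_iff_add_nonneg', ← neg_le_iff_add_nonneg', le_inv_mul_iff₀ (hbn e)]
      linarith
    have h4 : w g + t * c g = ∑ e : b, (‖(e : E)‖)⁻¹ * (w e + t * c e) := by
      rw [hg, map_sum, map_sum, mul_sum, ← sum_add_distrib]
      refine sum_congr rfl fun e _ => ?_
      rw [map_smul, map_smul, smul_eq_mul, smul_eq_mul]
      ring
    rw [h4]
    calc -(finrank ℝ E * W) ≤ -((Fintype.card b : ℝ) * W) :=
          neg_le_neg (mul_le_mul_of_nonneg_right hcard hW0)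
      _ = ∑ _e : b, -W := by rw [sum_const, card_univ, nsmul_eq_mul]; ring
      _ ≤ _ := sum_le_sum fun e _ => h3 e
  -- the sum of the multipliers of nonzero rows
  set Y : ℝ := ∑ i ∈ T.filter fun i => a i ≠ 0, y i with hY
  have hsplit : ∀ x, w x + t * c x = ∑ i ∈ T.filter fun i => a i ≠ 0, y i * a i x := by
    intro x
    rw [hu x]
    refine (sum_subset (subset_univ _) fun i _ hi => ?_).symm
    by_cases hiT : i ∈ T
    · have : a i = 0 := by
        by_contra h0
        exact hi (mem_filter.2 ⟨hiT, h0⟩)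
      rw [this]; simp
    · rw [hyT i hiT, zero_mul]
  have h3 : κ * Y ≤ finrank ℝ E * W := by
    rw [hsplit g] at h2
    have h4 : ∑ i ∈ T.filter (fun i => a i ≠ 0), y i * a i g ≤
        ∑ i ∈ T.filter (fun i => a i ≠ 0), y i * (-κ) := by
      refine sum_le_sum fun i hi => ?_
      obtain ⟨hi1, hi2⟩ := mem_filter.1 hi
      exact mul_le_mul_of_nonneg_left (h1 i hi1 hi2) (hy i hi1)
    rw [← sum_mul] at h4
    linarith
  obtain ⟨x, hx⟩ := hbig
  have h5 : |w x + t * c x| ≤ Y * (α * ‖x‖) := by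
    rw [hsplit x, hY, sum_mul]
    refine (abs_sum_le_sum_abs _ _).trans (sum_le_sum fun i hi => ?_)
    rw [abs_mul, abs_of_nonneg (hy i (mem_filter.1 hi).1)]
    exact mul_le_mul_of_nonneg_left (hw.1 i x) (hy i (mem_filter.1 hi).1)
  have h6 : Y * (α * ‖x‖) ≤ finrank ℝ E * W * (α / κ) * ‖x‖ := by
    have h7 : Y ≤ finrank ℝ E * W / κ := by
      rw [le_div_iff₀ hκ]; linarith
    calc Y * (α * ‖x‖) ≤ finrank ℝ E * W / κ * (α * ‖x‖) :=
          mul_le_mul_of_nonneg_right h7 (mul_nonneg hα (norm_nonneg _))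
      _ = _ := by ring
  linarith

theorem to_face {v : E} (hv : v ∈ PP a β) (hsp : ∀ g, (∀ i, a i g = 0) → g = 0) {i₀ : I}
    {c : E →ₗ[ℝ] ℝ} (hi₀ : i₀ ∈ tight a β v)
    (hrow : ∀ e, Elem a e → (∀ j ∈ tight a β v, a j e ≤ 0) → 0 ≤ c e → a i₀ e = 0) {x : E}
    (hx : x ∈ PP a β) : ∃ x' ∈ PP a β, a i₀ x' = β i₀ ∧ c x ≤ c x' := by
  classical
  by_cases h0 : x - v = 0
  · rw [sub_eq_zero] at h0
    exact ⟨x, hx, by rw [h0]; exact mem_tight.1 hi₀, le_rfl⟩
  set h := x - v with hh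
  set a' : I × Bool → E →ₗ[ℝ] ℝ := fun j => if j.2 then a j.1 else -a j.1 with ha'
  set T' : Finset (I × Bool) := univ.filter fun j => a' j h ≤ 0 with hT'
  have hmem : ∀ j, j ∈ T' ↔ a' j h ≤ 0 := fun j => by simp [hT']
  have htrue : ∀ i, a' (i, true) = a i := fun i => rfl
  have hfalse : ∀ i, a' (i, false) = -a i := fun i => rfl
  have hT1 : ∀ i, a i h ≤ 0 → (i, true) ∈ T' := fun i hi => (hmem _).2 hi
  have hT2 : ∀ i, 0 ≤ a i h → (i, false) ∈ T' := fun i hi => (hmem _).2 (by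
    rw [hfalse, LinearMap.neg_apply]; linarith)
  have hspan : Spans a' T' := by
    intro g hg
    apply hsp
    intro i
    rcases le_total (a i h) 0 with h1 | h1
    · exact hg _ (hT1 i h1)
    · have := hg _ (hT2 i h1)
      rw [hfalse, LinearMap.neg_apply] at this
      linarith
  obtain ⟨hp, hm⟩ := gen_pos hspan (h := h) (fun j hj => (hmem j).1 hj) h0
  set S : Set E := {g | ∃ g', (∀ j ∈ T', a' j g' ≤ 0) ∧ (∀ j ∈ T', a' j (g - g') ≤ 0) ∧
    a i₀ g' = 0 ∧ c g ≤ c g'} with hS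
  have hconv : Convex ℝ S := by
    rintro g₁ ⟨g₁', p1, p2, p3, p4⟩ g₂ ⟨g₂', q1, q2, q3, q4⟩ s t hs ht hst
    refine ⟨s • g₁' + t • g₂', fun j hj => ?_, fun j hj => ?_, ?_, ?_⟩
    · rw [map_add, map_smul, map_smul, smul_eq_mul, smul_eq_mul]
      have := mul_nonpos_of_nonneg_of_nonpos hs (p1 j hj)
      have := mul_nonpos_of_nonneg_of_nonpos ht (q1 j hj)
      linarith
    · have e : s • g₁ + t • g₂ - (s • g₁' + t • g₂') = s • (g₁ - g₁') + t • (g₂ - g₂') := by
        module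
      rw [e, map_add, map_smul, map_smul, smul_eq_mul, smul_eq_mul]
      have := mul_nonpos_of_nonneg_of_nonpos hs (p2 j hj)
      have := mul_nonpos_of_nonneg_of_nonpos ht (q2 j hj)
      linarith
    · rw [map_add, map_smul, map_smul, p3, q3]; simp
    · rw [map_add, map_add, map_smul, map_smul, map_smul, map_smul, smul_eq_mul, smul_eq_mul,
        smul_eq_mul, smul_eq_mul]
      have := mul_le_mul_of_nonneg_left p4 hs
      have := mul_le_mul_of_nonneg_left q4 ht
      linarith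
  have hdirs : {e | Dir a' T' e} ⊆ S := by
    intro e he
    have hel : Elem a e := by
      refine ⟨he.ne_zero, fun g hg => he.2.2 g fun j _ hj0 => ?_⟩
      obtain ⟨i, b⟩ := j
      cases b with
      | true => exact hg i hj0
      | false =>
        rw [hfalse, LinearMap.neg_apply] at hj0 ⊢
        rw [hg i (by linarith), neg_zero]
    have htight : ∀ j ∈ tight a β v, a j e ≤ 0 := fun j hj =>
      he.1 _ (hT1 j (tight_sub hx hj))
    by_cases he0 : a i₀ e = 0
    · refine ⟨e, he.1, fun j _ => ?_, he0, le_rfl⟩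
      rw [sub_self, map_zero]
    · refine ⟨0, fun j _ => by rw [map_zero], fun j hj => by rw [sub_zero]; exact he.1 j hj,
        map_zero _, ?_⟩
      rw [map_zero]
      by_contra hc
      push Not at hc
      exact he0 (hrow e hel htight hc.le)
  obtain ⟨g', g1, g2, g3, g4⟩ := convexHull_min hdirs hconv hm
  set l := lin a' T' h with hl
  refine ⟨v + l • g', fun j => ?_, ?_, ?_⟩
  · rw [map_add, map_smul, smul_eq_mul]
    rcases le_total (a j h) 0 with h1 | h1
    · have h2 := g1 _ (hT1 j h1)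
      rw [htrue] at h2
      have := mul_nonpos_of_nonneg_of_nonpos hp.le h2
      have := hv j
      linarith
    · have h2 := g2 _ (hT2 j h1)
      rw [hfalse, LinearMap.neg_apply, map_sub, map_smul, smul_eq_mul] at h2
      have h3 : a j g' ≤ l⁻¹ * a j h := by linarith
      have h4 := mul_le_mul_of_nonneg_left h3 hp.le
      rw [← mul_assoc, mul_inv_cancel₀ hp.ne', one_mul] at h4
      have h5 : a j h = a j x - a j v := by rw [hh, map_sub]
      have := hx j
      linarith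
  · rw [map_add, map_smul, g3, smul_zero, add_zero]
    exact mem_tight.1 hi₀
  · rw [map_add, map_smul, smul_eq_mul]
    rw [map_smul, smul_eq_mul] at g4
    have h4 := mul_le_mul_of_nonneg_left g4 hp.le
    rw [← mul_assoc, mul_inv_cancel₀ hp.ne', one_mul] at h4
    have h5 : c h = c x - c v := by rw [hh, map_sub]
    linarith

end Pool.Agent.K4H92.LP
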