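import Pool.Agent.K4H92.LP.TU.Fix
import Pool.Agent.K4H92.LP.TU.Cells
set_option autoImplicit false

/-!
# One phase of the walk
-/

namespace Pool.Agent.K4H92.LP

open Finset Module

section Walks

variable {E : Type*} [AddCommGroup E] [Module ℝ E] {I : Type*} [Fintype I]
  {a : I → E →ₗ[ℝ] ℝ} {β : I → ℝ} {c : E →ₗ[ℝ] ℝ}

/-- a walk of improving edges -/
inductive Walk (a : I → E →ₗ[ℝ] ℝ) (β : I → ℝ) (c : E →ₗ[ℝ] ℝ) : ℕ → E → E → Prop
  | nil (v : E) (hv : Vert a β v) : Walk a β c 0 v v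
  | cons (k : ℕ) (v w z : E) (h : Step a β c v w) (h' : Walk a β c k w z) :
      Walk a β c (k + 1) v z

theorem Walk.trans {k l : ℕ} {v w z : E} (h : Walk a β c k v w) (h' : Walk a β c l w z) :
    Walk a β c (l + k) v z := by
  induction h with
  | nil v hv => exact h'
  | cons k v w z h _ ih => exact .cons _ _ _ _ h (ih h')

theorem walk_of_seq {N : ℕ} : ∀ {x : ℕ → E}, Vert a β (x N) →
    (∀ k < N, Step a β c (x k) (x (k + 1))) → Walk a β c N (x 0) (x N) := by
  induction N with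
  | zero => intro x hv _; exact .nil _ hv
  | succ N ih =>
    intro x hv h
    exact .cons _ _ _ _ (h 0 (by omega)) (ih (x := fun k => x (k + 1)) hv
      fun k hk => h (k + 1) (by omega))

theorem Walk.seq {k : ℕ} {v z : E} (h : Walk a β c k v z) : ∃ x : ℕ → E, x 0 = v ∧ x k = z ∧
    (∀ j ≤ k, Vert a β (x j)) ∧ ∀ j < k, Step a β c (x j) (x (j + 1)) := by
  induction h with
  | nil v hv => exact ⟨fun _ => v, rfl, rfl, fun _ _ => hv, fun j hj => absurd hj (by omega)⟩
  | cons k v w z h _ ih =>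
    obtain ⟨x, h0, h1, h2, h3⟩ := ih
    refine ⟨fun j => Nat.casesOn j v x, rfl, h1, fun j hj => ?_, fun j hj => ?_⟩
    · cases j with
      | zero => exact h.1
      | succ j => exact h2 j (by omega)
    · cases j with
      | zero => change Step a β c v (x 0); rw [h0]; exact h
      | succ j => exact h3 j (by omega)

/-- a vertex at which the walk may end -/
def End (a : I → E →ₗ[ℝ] ℝ) (β : I → ℝ) (c : E →ₗ[ℝ] ℝ) (w : E) : Prop :=
  (∀ x ∈ PP a β, c x ≤ c w) ∨ ∃ e, Dir a (tight a β w) e ∧ 0 < c e ∧ ∀ i, a i e ≤ 0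

theorem vert_finite (a : I → E →ₗ[ℝ] ℝ) (β : I → ℝ) : {v | Vert a β v}.Finite := by
  classical
  have : Set.InjOn (fun v => tight a β v) {v | Vert a β v} := by
    intro v hv w hw h
    simp only at h
    have h1 : v - w = 0 := by
      apply hv.2
      intro i hi
      have h2 := hi
      rw [h] at h2
      rw [map_sub, mem_tight.1 hi, mem_tight.1 h2, sub_self]
    exact sub_eq_zero.1 h1
  exact Set.Finite.of_finite_image (Set.toFinite _) this

theorem exists_basis [FiniteDimensional ℝ E] {T : Finset I} (hT : Spans a T) :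
    ∃ B ⊆ T, B.card ≤ finrank ℝ E ∧ Spans a B := by
  classical
  set s : Set (Module.Dual ℝ E) := a '' (T : Set I) with hs
  obtain ⟨b, hb, hspan, hli⟩ := exists_linearIndependent ℝ s
  have hfin : b.Finite := LinearIndependent.setFinite hli
  have : Fintype b := hfin.fintype
  have hcard : Fintype.card b ≤ finrank ℝ E := by
    have := hli.fintype_card_le_finrank
    rwa [Subspace.dual_finrank_eq] at this
  have hex : ∀ f : b, ∃ i ∈ T, a i = f := fun f => by
    obtain ⟨i, hi, h⟩ := hb f.2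
    exact ⟨i, hi, h⟩
  choose ix hix1 hix2 using hex
  refine ⟨univ.image ix, fun i hi => ?_, ?_, fun g hg => ?_⟩
  · obtain ⟨f, _, rfl⟩ := mem_image.1 hi
    exact hix1 f
  · exact card_image_le.trans (by rw [card_univ]; exact hcard)
  · apply hT
    intro i hi
    have h1 : Submodule.span ℝ b ≤ LinearMap.ker (Module.Dual.eval ℝ E g) := by
      refine Submodule.span_le.2 fun f hf => ?_
      have := hg (ix ⟨f, hf⟩) (mem_image_of_mem _ (mem_univ _))
      rw [hix2] at this
      exact this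
    rw [hspan] at h1
    exact h1 (Submodule.subset_span ⟨i, hi, rfl⟩)

end Walks

variable {E : Type*} [NormedAddCommGroup E] [NormedSpace ℝ E] [FiniteDimensional ℝ E]
  {I : Type*} [Fintype I] {a : I → E →ₗ[ℝ] ℝ} {β : I → ℝ} {c : E →ₗ[ℝ] ℝ}

open MeasureTheory Metric

/-- the open cone of the functionals which are strictly maximal at `w` -/
def ncone (a : I → E →ₗ[ℝ] ℝ) (β : I → ℝ) (w : E) : Set (E →L[ℝ] ℝ) :=
  {q | ∀ e, Dir a (tight a β w) e → q e < 0}

theorem ncone_open (w : E) : IsOpen (ncone a β w) := by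
  have h : ncone a β w = ⋂ e ∈ (dir_finite a (tight a β w)).toFinset,
      {q : E →L[ℝ] ℝ | q e < 0} := by
    ext q
    simp [ncone]
  rw [h]
  refine isOpen_biInter_finset fun e _ => ?_
  exact isOpen_lt (ContinuousLinearMap.apply ℝ ℝ e).continuous continuous_const

theorem ncone_disj {w w' : E} (hw : Vert a β w) (hw' : Vert a β w') (hne : w ≠ w') :
    Disjoint (ncone a β w) (ncone a β w') := by
  rw [Set.disjoint_left]
  intro q h1 h2
  have h3 := vert_lt hw (f := (q : E →ₗ[ℝ] ℝ)) h1 hw'.1 hne.symm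
  have h4 := vert_lt hw' (f := (q : E →ₗ[ℝ] ℝ)) h2 hw.1 hne
  exact lt_asymm h3 h4

/-- a functional which is far inside the cone -/
noncomputable def deep (a : I → E →ₗ[ℝ] ℝ) (B : Finset I) : E →L[ℝ] ℝ :=
  ∑ i ∈ B, LinearMap.toContinuousLinearMap (a i)

theorem deep_apply (B : Finset I) (x : E) : deep a B x = ∑ i ∈ B, a i x := by
  simp [deep, ContinuousLinearMap.sum_apply]

theorem deep_norm {α κ : ℝ} (hα : 0 ≤ α) (hw : Wide a α κ) {B : Finset I}
    (hB : B.card ≤ finrank ℝ E) : ‖deep a B‖ ≤ finrank ℝ E * α := by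
  refine (norm_sum_le _ _).trans ?_
  calc ∑ i ∈ B, ‖LinearMap.toContinuousLinearMap (a i)‖ ≤ ∑ _i ∈ B, α :=
        sum_le_sum fun i _ => ContinuousLinearMap.opNorm_le_bound _ hα fun x => by
          rw [Real.norm_eq_abs]; exact hw.1 i x
    _ = B.card * α := by rw [sum_const, nsmul_eq_mul]
    _ ≤ _ := mul_le_mul_of_nonneg_right (by exact_mod_cast hB) hα

theorem deep_dir {α κ : ℝ} (hw : Wide a α κ) {w : E} {B : Finset I}
    (hB : B ⊆ tight a β w) (hs : Spans a B) {e : E} (he : Dir a (tight a β w) e) :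
    deep a B e ≤ -(κ * ‖e‖) := by
  classical
  obtain ⟨i, hi, hie⟩ : ∃ i ∈ B, a i e ≠ 0 := by
    by_contra hcon
    push Not at hcon
    exact he.ne_zero (hs e hcon)
  rw [deep_apply, ← add_sum_erase _ _ hi]
  have h1 : ∑ j ∈ B.erase i, a j e ≤ 0 :=
    sum_nonpos fun j hj => he.1 j (hB (mem_of_mem_erase hj))
  have h2 := hw.2 e he.elem i hie
  rw [abs_of_nonpos (he.1 i (hB hi))] at h2
  linarith

theorem null_bad (μ : Measure (E →L[ℝ] ℝ)) [μ.IsAddHaarMeasure] (L : Finset E)
    (hL : ∀ z ∈ L, z ≠ 0) : μ {p : E →L[ℝ] ℝ | ∃ z ∈ L, p z = 0} = 0 := by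
  have h : {p : E →L[ℝ] ℝ | ∃ z ∈ L, p z = 0} = ⋃ z ∈ L, {p : E →L[ℝ] ℝ | p z = 0} := by
    ext p
    simp
  rw [h]
  refine (measure_biUnion_null_iff L.countable_toSet).2 ?_
  intro z hz
  have h1 : {p : E →L[ℝ] ℝ | p z = 0} =
      (LinearMap.ker ((ContinuousLinearMap.apply ℝ ℝ z).toLinearMap) : Set (E →L[ℝ] ℝ)) := by
    ext p
    simp
  rw [h1]
  apply Measure.addHaar_submodule
  intro htop
  obtain ⟨g, hg⟩ := exists_dual_vector ℝ z (norm_ne_zero_iff.2 (hL z hz))
  have h2 : g ∈ LinearMap.ker ((ContinuousLinearMap.apply ℝ ℝ z).toLinearMap) := by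
    rw [htop]; trivial
  have h3 : g z = 0 := h2
  have h4 : ‖z‖ ≠ 0 := (norm_pos_iff.2 (hL z hz)).ne'
  obtain ⟨_, hg2⟩ := hg
  rw [h3] at hg2
  apply h4
  exact_mod_cast hg2.symm

/-- one phase -/
theorem phase {α κ : ℝ} (hα : 0 < α) (hκ : 0 < κ) (hw : Wide a α κ)
    (hsp : ∀ g, (∀ i, a i g = 0) → g = 0) (hn : 1 ≤ finrank ℝ E) (hc : c ≠ 0) {v : E}
    (hv : Vert a β v) :
    ∃ (N : ℕ) (w : E), (N : ℝ) ≤ finrank ℝ E ^ 2 * (α / κ) * (finrank ℝ E * (α / κ) + 1) ^ 2 ∧
      Walk a β c N v w ∧ Vert a β w ∧ (End a β c w ∨ ∃ i ∈ tight a β w, a i ≠ 0 ∧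
        ∀ x ∈ PP a β, ∃ x' ∈ PP a β, a i x' = β i ∧ c x ≤ c x') := by
  classical
  set n : ℝ := (finrank ℝ E : ℝ) with hnn
  have hn0 : 0 < n := by rw [hnn]; exact_mod_cast hn
  set lam := α / κ with hlam
  have hlam0 : 0 < lam := div_pos hα hκ
  set cL : E →L[ℝ] ℝ := LinearMap.toContinuousLinearMap c with hcL
  have hcLx : ∀ x, cL x = c x := fun x => rfl
  have hcn : 0 < ‖cL‖ := by
    rw [norm_pos_iff]
    intro h
    apply hc
    ext x
    rw [← hcLx, h]; rfl
  -- the family of cones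
  set V : Finset E := (vert_finite a β).toFinset with hV
  have memV : ∀ w, w ∈ V ↔ Vert a β w := fun w => by
    rw [hV, Set.Finite.mem_toFinset]; rfl
  have hBex : ∀ w : E, ∃ B : Finset I, Vert a β w → B ⊆ tight a β w ∧ B.card ≤ finrank ℝ E ∧
      Spans a B := by
    intro w
    by_cases hvw : Vert a β w
    · obtain ⟨B, h1, h2, h3⟩ := exists_basis hvw.2
      exact ⟨B, fun _ => ⟨h1, h2, h3⟩⟩
    · exact ⟨∅, fun h => absurd h hvw⟩
  choose B hB using hBex
  set T : ℝ := (n * lam + 1) ^ 2 / ‖cL‖ with hT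
  have hT0 : 0 < T := by positivity
  have hTc : T * ‖cL‖ = (n * lam + 1) ^ 2 := div_mul_cancel₀ _ hcn.ne'
  -- the bad functionals
  set c' : E → ℝ := fun x => T * c x with hc'
  set Dr : Finset E := (Finset.univ : Finset (Finset I)).biUnion
    (fun T => (dir_finite a T).toFinset) with hDr
  have memDr : ∀ T e, Dir a T e → e ∈ Dr := fun T e he => by
    rw [hDr, mem_biUnion]
    exact ⟨T, mem_univ _, by rw [Set.Finite.mem_toFinset]; exact he⟩
  set L : Finset E := (Dr ∪ (Dr ×ˢ Dr).image fun π => (c π.2) • π.1 - (c π.1) • π.2).erase 0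
    with hL
  have hfr : finrank ℝ (E →L[ℝ] ℝ) = finrank ℝ E := by
    rw [← (LinearMap.toContinuousLinearMap (𝕜 := ℝ) (E := E) (F' := ℝ)).finrank_eq]
    exact Subspace.dual_finrank_eq
  set D : E →L[ℝ] ℝ := (1 / κ) • deep a (B v) with hD
  obtain ⟨p, hpD, hpbad, S, hS1, hS2⟩ := few_cells (Measure.addHaar : Measure (E →L[ℝ] ℝ)) V
    (ncone a β) (fun w _ => ncone_open w)
    (fun w h1 w' h2 hne => ncone_disj ((memV w).1 h1) ((memV w').1 h2) hne)
    (fun w => deep a (B w)) (r := n * α) (κ := κ) (by positivity)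
    (fun w h1 => deep_norm hα.le hw (hB w ((memV w).1 h1)).2.1) hκ
    (fun w h1 s hs q hq e he => by
      obtain ⟨b1, b2, b3⟩ := hB w ((memV w).1 h1)
      have h2 := deep_dir hw b1 b3 he
      have h3 : (q + s • deep a (B w)) e = q e + s * deep a (B w) e := rfl
      rw [h3]
      have h4 : deep a (B w) e ≤ 0 := h2.trans (by
        have := mul_nonneg hκ.le (norm_nonneg e)
        linarith)
      have := mul_nonpos_of_nonneg_of_nonpos hs h4
      have := hq e he
      linarith)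
    (fun w h1 c₁ q hq hq' s hs hcon => by
      obtain ⟨b1, b2, b3⟩ := hB w ((memV w).1 h1)
      simp only [ncone, Set.mem_setOf_eq, not_forall, not_lt] at hq'
      obtain ⟨e, he, h2⟩ := hq'
      have h3 := deep_dir hw b1 b3 he
      have h4 := hcon e he
      have e1 : (q - s • deep a (B w)) e = q e - s * deep a (B w) e := rfl
      have e2 : (q + c₁) e = q e + c₁ e := rfl
      rw [e1] at h4
      rw [e2] at h2
      have h5 : c₁ e ≤ ‖c₁‖ * ‖e‖ := (le_abs_self _).trans (c₁.le_opNorm e)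
      have h6 : ‖c₁‖ * ‖e‖ ≤ s * κ * ‖e‖ := mul_le_mul_of_nonneg_right hs (norm_nonneg _)
      have hs0 : 0 ≤ s := by
        have h7 : 0 ≤ s * κ := (norm_nonneg _).trans hs
        exact nonneg_of_mul_nonneg_left h7 hκ
      have h8 := mul_le_mul_of_nonneg_left h3 hs0
      nlinarith)
    (by rw [hfr]; exact hn) cL D hT0 {p | ∃ z ∈ L, p z = 0}
    (null_bad _ L fun z hz => ne_of_mem_erase hz)
  rw [hfr, ← hnn, hTc] at hS2
  have hS3 : (S.card : ℝ) ≤ n ^ 2 * lam * (n * lam + 1) ^ 2 + 1 := by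
    refine hS2.trans (le_of_eq ?_)
    rw [hlam]
    field_simp
  have hpne : ∀ z ∈ L, p z ≠ 0 := fun z hz h0 => hpbad ⟨z, hz, h0⟩
  -- the target
  set pl : E →ₗ[ℝ] ℝ := (p : E →ₗ[ℝ] ℝ) with hpl
  have hplx : ∀ x, pl x = p x := fun x => rfl
  set ct : E →ₗ[ℝ] ℝ := pl + T • c with hct
  have hmix : ∀ θ x, mix pl ct θ x = p x + θ * T * c x := by
    intro θ x
    rw [mix_apply, hct, hplx]
    simp only [LinearMap.add_apply, LinearMap.smul_apply, smul_eq_mul, hplx]
    ring
  have hgen : Gen a β pl ct := by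
    intro u _ e e' he he' hne θ h0 h1 hz hz'
    rw [hmix] at hz hz'
    have hd2 : p ((c e') • e - (c e) • e') = 0 := by
      rw [map_sub, map_smul, map_smul, smul_eq_mul, smul_eq_mul]
      linear_combination (c e') * hz - (c e) * hz'
    have hw0 : (c e') • e - (c e) • e' = 0 := by
      by_contra hw0
      refine hpne _ (mem_erase.2 ⟨hw0, mem_union_right _ (mem_image.2
        ⟨(e, e'), mem_product.2 ⟨memDr _ _ he, memDr _ _ he'⟩, rfl⟩)⟩) hd2
    have hd1 : p e ≠ 0 := hpne e (mem_erase.2 ⟨he.ne_zero, mem_union_left _ (memDr _ _ he)⟩)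
    have h3 := congrArg (lin a (tight a β u)) hw0
    rw [map_sub, map_smul, map_smul, he.2.1, he'.2.1, map_zero, smul_eq_mul, smul_eq_mul, mul_one,
      mul_one] at h3
    have h4 : c e' = c e := by linarith
    have hce : c e ≠ 0 := by
      intro h5
      rw [h5, mul_zero, add_zero] at hz
      exact hd1 hz
    rw [h4, ← smul_sub] at hw0
    rcases smul_eq_zero.1 hw0 with h5 | h5
    · exact hce h5
    · exact hne (sub_eq_zero.1 h5)
  obtain ⟨bv1, bv2, bv3⟩ := hB v hv
  have hpD' : ‖p - D‖ < 1 := by rwa [mem_ball, dist_eq_norm] at hpD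
  have hstart : Sh a β pl ct v 0 := by
    refine ⟨hv, le_rfl, one_pos, fun e he => ?_⟩
    rw [hmix, zero_mul, zero_mul, add_zero]
    have h1 := deep_dir hw bv1 bv3 he
    have h2 : D e ≤ -‖e‖ := by
      have e1 : D e = (1 / κ) * deep a (B v) e := rfl
      rw [e1]
      have h3 := mul_le_mul_of_nonneg_left h1 (one_div_pos.2 hκ).le
      have e2 : 1 / κ * -(κ * ‖e‖) = -‖e‖ := by field_simp
      rwa [e2] at h3
    have h3 : (p - D) e ≤ ‖p - D‖ * ‖e‖ := (le_abs_self _).trans ((p - D).le_opNorm e)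
    have h4 : (p - D) e = p e - D e := rfl
    have h5 : 0 < ‖e‖ := norm_pos_iff.2 he.ne_zero
    have h6 : ‖p - D‖ * ‖e‖ < 1 * ‖e‖ := mul_lt_mul_of_pos_right hpD' h5
    linarith
  have hSmem : ∀ w θ, Sh a β pl ct w θ → w ∈ S := by
    rintro w θ ⟨h1, h2, h3, h4⟩
    refine hS1 w ((memV w).2 h1) (θ * T) (by positivity) (by nlinarith) fun e he => ?_
    have h5 := h4 e he
    rw [hmix] at h5
    exact h5
  obtain ⟨N, x, θ, g1, g2, g3, g4, g5, g6⟩ := path hgen hSmem v 0 hstart
  have hpos : ∀ k ≤ N, ∀ e, Dir a (tight a β (x k)) e → 0 < ct e → 0 < c e := by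
    intro k hk e he hce
    obtain ⟨_, t0, t1, h1⟩ := g4 k hk
    have h2 := h1 e he
    rw [hmix] at h2
    have h3 : ct e = p e + T * c e := by
      rw [hct]
      simp only [LinearMap.add_apply, LinearMap.smul_apply, smul_eq_mul, hplx]
    rw [h3] at hce
    by_contra hcon
    push Not at hcon
    have h4 : (1 - θ k) * (T * c e) ≤ 0 :=
      mul_nonpos_of_nonneg_of_nonpos (by linarith)
        (mul_nonpos_of_nonneg_of_nonpos hT0.le hcon)
    nlinarith
  have hNle : (N : ℝ) ≤ n ^ 2 * lam * (n * lam + 1) ^ 2 := by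
    have h1 : (N : ℝ) + 1 ≤ S.card := by exact_mod_cast g1
    linarith
  have hvN : Vert a β (x N) := (g4 N le_rfl).1
  have hwalk : Walk a β c N v (x N) := by
    have := walk_of_seq (a := a) (β := β) (c := c) (N := N) (x := x) hvN (fun k hk => by
      obtain ⟨⟨s1, s2, e, t, s3, s4, s5, s6, s7⟩, _⟩ := g5 k hk
      exact ⟨s1, s2, e, t, s3, hpos k hk.le e s3 s4, s5, s6, s7⟩)
    rwa [g2] at this
  refine ⟨N, x N, hNle, hwalk, hvN, ?_⟩
  rcases g6 with h | ⟨e, he, hce, hray⟩
  · right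
    obtain ⟨y, y1, y2, y3⟩ := farkas_set (a := a) (T := tight a β (x N)) (f := ct)
      (fun z hz => cone_le hvN.2 h hz)
    obtain ⟨i, hi, hi0, hrow⟩ := exists_row (c := c) (w := pl) (W := ‖p‖) (t := T) hα.le hκ hw
      (norm_nonneg _) hT0 (fun z => p.le_opNorm z) y1 y2 (fun z => by
        rw [← y3 z, hct]
        simp only [LinearMap.add_apply, LinearMap.smul_apply, smul_eq_mul]) (by
        by_contra hcon
        push Not at hcon
        have h1 : ‖p + T • cL‖ ≤ n * ‖p‖ * lam := by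
          refine ContinuousLinearMap.opNorm_le_bound _ (by positivity) fun z => ?_
          rw [Real.norm_eq_abs]
          exact hcon z
        have h2 : T * ‖cL‖ ≤ ‖p + T • cL‖ + ‖p‖ := by
          calc T * ‖cL‖ = ‖T • cL‖ := by rw [norm_smul, Real.norm_eq_abs, abs_of_pos hT0]
            _ = ‖(p + T • cL) - p‖ := by rw [add_sub_cancel_left]
            _ ≤ _ := norm_sub_le _ _
        have h3 : ‖p‖ < n * lam + 1 := by
          have h4 : ‖D‖ ≤ n * lam := by
            rw [hD, norm_smul, Real.norm_eq_abs, abs_of_pos (one_div_pos.2 hκ)]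
            have h5 := deep_norm hα.le hw bv2
            calc 1 / κ * ‖deep a (B v)‖ ≤ 1 / κ * (n * α) :=
                  mul_le_mul_of_nonneg_left h5 (one_div_pos.2 hκ).le
              _ = n * lam := by rw [hlam]; ring
          calc ‖p‖ = ‖D + (p - D)‖ := by rw [add_sub_cancel]
            _ ≤ ‖D‖ + ‖p - D‖ := norm_add_le _ _
            _ < _ := add_lt_add_of_le_of_lt h4 hpD'
        rw [hTc] at h2
        have h4 : 0 < n * lam + 1 := by positivity
        nlinarith)
    exact ⟨i, hi, hi0, fun z hz => to_face hvN.1 hsp hi hrow hz⟩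
  · left
    right
    refine ⟨e, he, hpos N le_rfl e he hce, fun i => ?_⟩
    by_contra hcon
    push Not at hcon
    have h0 := hvN.1 i
    have h3 := hray ((β i - a i (x N) + 1) / a i e) (div_nonneg (by linarith) hcon.le) i
    rw [map_add, map_smul, smul_eq_mul, div_mul_cancel₀ _ hcon.ne'] at h3
    linarith

end Pool.Agent.K4H92.LP
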