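import Pool.Agent.K4H92.LP.TU.Phase
set_option autoImplicit false

/-!
# Recursion on faces
-/

namespace Pool.Agent.K4H92.LP

open Finset Module

universe u v

section Face

variable {E : Type u} [AddCommGroup E] [Module ℝ E]
  {I : Type v} [Fintype I] {a : I → E →ₗ[ℝ] ℝ} {β : I → ℝ} {c : E →ₗ[ℝ] ℝ} {i₀ : I} {w₁ : E}

/-- the rows on the hyperplane of the row `i₀` -/
def ra (a : I → E →ₗ[ℝ] ℝ) (i₀ : I) : I → LinearMap.ker (a i₀) →ₗ[ℝ] ℝ :=
  fun j => (a j).comp (LinearMap.ker (a i₀)).subtype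

/-- the right-hand sides for the new origin `w₁` -/
def rb (a : I → E →ₗ[ℝ] ℝ) (β : I → ℝ) (w₁ : E) : I → ℝ := fun j => β j - a j w₁

theorem ra_apply (j : I) (g : LinearMap.ker (a i₀)) : ra a i₀ j g = a j g := rfl

theorem mem_res {g : LinearMap.ker (a i₀)} :
    g ∈ PP (ra a i₀) (rb a β w₁) ↔ w₁ + (g : E) ∈ PP a β := by
  constructor
  · intro h j
    have := h j
    rw [ra_apply, rb] at this
    rw [map_add]
    linarith
  · intro h j
    have := h j
    rw [map_add] at this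
    rw [ra_apply, rb]
    linarith

theorem tight_res (g : LinearMap.ker (a i₀)) :
    tight (ra a i₀) (rb a β w₁) g = tight a β (w₁ + (g : E)) := by
  ext j
  rw [mem_tight, mem_tight, ra_apply, rb, map_add]
  constructor
  · intro h; linarith
  · intro h; linarith

theorem tight_mem (hi : i₀ ∈ tight a β w₁) (g : LinearMap.ker (a i₀)) :
    i₀ ∈ tight a β (w₁ + (g : E)) := by
  rw [mem_tight, map_add, mem_tight.1 hi, show a i₀ (g : E) = 0 from g.2, add_zero]

theorem dir_res {T : Finset I} (hi : i₀ ∈ T) {e : LinearMap.ker (a i₀)}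
    (he : Dir (ra a i₀) T e) : Dir a T (e : E) := by
  refine ⟨he.1, ?_, fun g hg => ?_⟩
  · have := he.2.1
    rw [lin_apply] at this ⊢
    exact this
  · have h1 : g ∈ LinearMap.ker (a i₀) := hg i₀ hi e.2
    obtain ⟨t, ht⟩ := he.2.2 ⟨g, h1⟩ hg
    exact ⟨t, congrArg Subtype.val ht⟩

theorem vert_res (hi : i₀ ∈ tight a β w₁) {g : LinearMap.ker (a i₀)}
    (hg : Vert (ra a i₀) (rb a β w₁) g) : Vert a β (w₁ + (g : E)) := by
  refine ⟨mem_res.1 hg.1, fun z hz => ?_⟩
  have h1 : z ∈ LinearMap.ker (a i₀) := hz i₀ (tight_mem hi g)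
  have h2 := hg.2 ⟨z, h1⟩ fun j hj => by
    rw [tight_res] at hj
    exact hz j hj
  exact congrArg Subtype.val h2

theorem vert_zero (hw : Vert a β w₁) : Vert (ra a i₀) (rb a β w₁) 0 := by
  refine ⟨mem_res.2 (by simpa using hw.1), fun z hz => ?_⟩
  apply Subtype.ext
  apply hw.2
  intro j hj
  refine hz j ?_
  rw [tight_res]
  simpa using hj

theorem step_res (hi : i₀ ∈ tight a β w₁) {g g' : LinearMap.ker (a i₀)}
    (h : Step (ra a i₀) (rb a β w₁) (c.comp (LinearMap.ker (a i₀)).subtype) g g') :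
    Step a β c (w₁ + (g : E)) (w₁ + (g' : E)) := by
  obtain ⟨h1, h2, e, t, h3, h4, h5, rfl, h6⟩ := h
  refine ⟨vert_res hi h1, vert_res hi h2, e, t, ?_, h4, h5, ?_, fun s hs => h6 s ?_⟩
  · rw [tight_res] at h3
    exact dir_res (tight_mem hi g) h3
  · rw [Submodule.coe_add, Submodule.coe_smul, add_assoc]
  · rw [mem_res, Submodule.coe_add, Submodule.coe_smul, ← add_assoc]
    exact hs

theorem walk_res (hi : i₀ ∈ tight a β w₁) {k : ℕ} {g g' : LinearMap.ker (a i₀)}
    (h : Walk (ra a i₀) (rb a β w₁) (c.comp (LinearMap.ker (a i₀)).subtype) k g g') :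
    Walk a β c k (w₁ + (g : E)) (w₁ + (g' : E)) := by
  induction h with
  | nil v hv => exact .nil _ (vert_res hi hv)
  | cons k v w z h _ ih => exact .cons _ _ _ _ (step_res hi h) ih

end Face

theorem wide_res {E : Type u} [NormedAddCommGroup E] [NormedSpace ℝ E]
    {I : Type v} [Fintype I] {a : I → E →ₗ[ℝ] ℝ} {i₀ : I} {α κ : ℝ} (hw : Wide a α κ) :
    Wide (ra a i₀) α κ := by
  refine ⟨fun j x => hw.1 j x, fun e he j hj => hw.2 (e : E) ⟨fun h => he.1 (Subtype.ext h),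
    fun g hg => ?_⟩ j hj⟩
  have h1 : g ∈ LinearMap.ker (a i₀) := hg i₀ e.2
  obtain ⟨t, ht⟩ := he.2 ⟨g, h1⟩ hg
  exact ⟨t, congrArg Subtype.val ht⟩

theorem mono_walk (n : ℕ) : ∀ (E : Type u) [NormedAddCommGroup E] [NormedSpace ℝ E]
    [FiniteDimensional ℝ E] (I : Type v) [Fintype I] (a : I → E →ₗ[ℝ] ℝ) (β : I → ℝ)
    (c : E →ₗ[ℝ] ℝ) {α κ : ℝ} (_ : 0 < α) (_ : 0 < κ) (_ : Wide a α κ), finrank ℝ E = n →
    ∀ v, Vert a β v → ∃ (N : ℕ) (w : E),
      (N : ℝ) ≤ n * (n ^ 2 * (α / κ) * (n * (α / κ) + 1) ^ 2) ∧ Walk a β c N v w ∧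
      Vert a β w ∧ End a β c w := by
  induction n with
  | zero =>
    intro E _ _ _ I _ a β c α κ hα hκ hw hn v hv
    have : Subsingleton E := Module.finrank_zero_iff.1 hn
    refine ⟨0, v, by simp, .nil v hv, hv, Or.inl fun x _ => ?_⟩
    rw [Subsingleton.elim x v]
  | succ n ih =>
    intro E _ _ _ I _ a β c α κ hα hκ hw hn v hv
    have hlam : 0 < α / κ := div_pos hα hκ
    by_cases hc : c = 0
    · refine ⟨0, v, ?_, .nil v hv, hv, Or.inl fun x _ => by rw [hc]; simp⟩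
      rw [Nat.cast_zero]
      positivity
    obtain ⟨N₁, w₁, h1, h2, h3, h4⟩ := phase hα hκ hw (fun g hg => hv.2 g fun i _ => hg i)
      (by omega) hc hv
    rw [hn] at h1
    have hmono : (n : ℝ) * (n ^ 2 * (α / κ) * (n * (α / κ) + 1) ^ 2) ≤
        n * (((n + 1 : ℕ) : ℝ) ^ 2 * (α / κ) * (((n + 1 : ℕ) : ℝ) * (α / κ) + 1) ^ 2) := by
      have h5 : (n : ℝ) ≤ ((n + 1 : ℕ) : ℝ) := by push_cast; linarith
      gcongr
    have hpos : 0 ≤ (n : ℝ) * (n ^ 2 * (α / κ) * (n * (α / κ) + 1) ^ 2) := by positivity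
    rcases h4 with h4 | ⟨i, hi, hi0, hface⟩
    · refine ⟨N₁, w₁, ?_, h2, h3, h4⟩
      calc (N₁ : ℝ) ≤ _ := h1
        _ ≤ _ := by
          have h6 : (1:ℝ) ≤ ((n + 1 : ℕ) : ℝ) := by push_cast; linarith [Nat.cast_nonneg (α := ℝ) n]
          exact le_mul_of_one_le_left (by positivity) h6
    · have hfin : finrank ℝ (LinearMap.ker (a i)) = n := by
        have := Module.Dual.finrank_ker_add_one_of_ne_zero (f := a i) hi0
        omega
      obtain ⟨N₂, g, k1, k2, k3, k4⟩ := ih (LinearMap.ker (a i)) I (ra a i) (rb a β w₁)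
        (c.comp (LinearMap.ker (a i)).subtype) hα hκ (wide_res hw) hfin 0 (vert_zero h3)
      have hwalk := walk_res hi k2
      rw [ZeroMemClass.coe_zero, add_zero] at hwalk
      refine ⟨N₂ + N₁, w₁ + g, ?_, h2.trans hwalk, vert_res hi k3, ?_⟩
      · push_cast at h1 hmono k1 ⊢
        linarith
      · rcases k4 with k4 | ⟨e, e1, e2, e3⟩
        · left
          intro x hx
          obtain ⟨x', hx', h5, h6⟩ := hface x hx
          have h7 : x' - w₁ ∈ LinearMap.ker (a i) := by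
            rw [LinearMap.mem_ker, map_sub, h5, mem_tight.1 hi, sub_self]
          have h8 : (⟨x' - w₁, h7⟩ : LinearMap.ker (a i)) ∈ PP (ra a i) (rb a β w₁) := by
            rw [mem_res]
            simpa using hx'
          have h9 := k4 _ h8
          simp only [LinearMap.comp_apply, Submodule.subtype_apply, map_sub] at h9
          rw [map_add]
          linarith
        · right
          rw [tight_res] at e1
          exact ⟨e, dir_res (tight_mem hi g) e1, e2, e3⟩

end Pool.Agent.K4H92.LP
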